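import Pool.Agent.H7.HD.Targets11
import Pool.Agent.H20.HD9.CD

/-!
# MP_e37c09_lc: row LD of the board `hd7_modules`: definability of the class of `(T, g)`
-/

open Ordinal Cardinal Order Set
open scoped ZFSet

universe u

namespace Pool.Agent.H68.HE.LD

open _root_.HD Pool.Agent.H20.HD9.CD

variable {en : Ordinal.{u} → ZFSet.{u}} {t : Ordinal.{u} → Ordinal.{u} → Ordinal.{u}}
  {X : Set Ordinal.{u}}

theorem df_t (ht : Prf t) (i j : ℕ) : DF.{u} fun _ w => t (w i) (w j) :=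
  DM.of_do (ht.dfn.ren (fun n => if n = 0 then i + 1 else if n = 1 then j + 1 else 0))

theorem dm_E (hen : EN en) (a c : ℕ) : DM.{u} fun _ w => w a ∈ E en (w c) :=
  DM.of_do ((All.ea en hen).1.ren (fun n => if n = 0 then a else c))

theorem dm_tE (hen : EN en) (ht : Prf t) (q a g c : ℕ) :
    DM.{u} fun s w => t (w a) (hz (s q) (w g)) ∈ E en (w c) := by
  refine DM.subst (f := fun s w => hz (s q) (w g))
    (R := fun b s w => t (w a) b ∈ E en (w c)) (df_hz q g) ?_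
  exact DM.subst (f := fun _ w => t (w (a + 1)) (w 0))
    (R := fun x _ w => x ∈ E en (w (c + 1))) (df_t ht (a + 1) 0) (dm_E hen 0 (c + 2))

/-- `LN` depends only on the parts below `ν` -/
theorem LN_congr {ν : Ordinal.{u}} {T T' : Set Ordinal.{u}} {g g' : Ordinal.{u} → Ordinal.{u}}
    (hT : ∀ a < ν, (a ∈ T ↔ a ∈ T')) (hg : ∀ a < ν, g a = g' a) (h : LN en t X ν T g) :
    LN en t X ν T' g' := by
  constructor
  · intro γ hγ hlt
    rw [← hg γ hlt]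
    exact h.lt γ ((hT γ hlt).2 hγ) hlt
  · intro z hz'
    refine h.gd z ((Pos.congr fun b hb => ?_).1 hz')
    show (b ∈ T' ∧ (∀ a < b, t a (g' b) ∈ E en z) ∧ ∃ a < g' b, t a (g' b) ∉ E en z) ↔
      (b ∈ T ∧ (∀ a < b, t a (g b) ∈ E en z) ∧ ∃ a < g b, t a (g b) ∉ E en z)
    rw [hT b hb, hg b hb]

theorem dm_LN (hen : EN en) (ht : Prf t) (hX : DS X) (p q i : ℕ) :
    DM.{u} fun s w => LN en t X (w i) {a | a.toZFSet ∈ s p} (hz (s q)) := by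
  have hX' : ∀ j : ℕ, DM.{u} fun _ w => w j ∈ X := fun j => DM.of_do (hX.s1 j)
  have h1 : DM.{u} fun s w => ∀ γ : Ordinal.{u}, γ.toZFSet ∈ s p → γ < w i →
      (γ < hz (s q) γ ∧ hz (s q) γ < w i ∧ hz (s q) γ ∈ X) := by
    refine DM.allO (R := fun γ s w => γ.toZFSet ∈ s p → γ < w i →
      (γ < hz (s q) γ ∧ hz (s q) γ < w i ∧ hz (s q) γ ∈ X)) ?_
    refine (DM.smem p 0).imp ((DM.of_do (DO.lt 0 (i + 1))).imp ?_)
    refine DM.subst (f := fun s w => hz (s q) (w 0))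
      (R := fun b _ w => w 0 < b ∧ b < w (i + 1) ∧ b ∈ X) (df_hz q 0) ?_
    exact (DM.of_do (DO.lt 1 0)).and ((DM.of_do (DO.lt 0 (i + 2))).and (hX' 0))
  have h2 : DM.{u} fun s w => ∀ z, ¬ Pos om (w i) {γ | γ.toZFSet ∈ s p ∧
      (∀ a, a < γ → t a (hz (s q) γ) ∈ E en z) ∧
        ∃ a, a < hz (s q) γ ∧ ¬ t a (hz (s q) γ) ∈ E en z} := by
    refine DM.allO (R := fun z s w => ¬ Pos om (w i) {γ | γ.toZFSet ∈ s p ∧
      (∀ a, a < γ → t a (hz (s q) γ) ∈ E en z) ∧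
        ∃ a, a < hz (s q) γ ∧ ¬ t a (hz (s q) γ) ∈ E en z}) ?_
    refine DM.not (DM.posc (X := fun γ s w => γ.toZFSet ∈ s p ∧
      (∀ a, a < γ → t a (hz (s q) γ) ∈ E en (w 0)) ∧
        ∃ a, a < hz (s q) γ ∧ ¬ t a (hz (s q) γ) ∈ E en (w 0)) ?_ om (i + 1))
    refine (DM.smem p 0).and (DM.and ?_ ?_)
    · refine DM.allO (R := fun a s w => a < w 0 → t a (hz (s q) (w 0)) ∈ E en (w 1)) ?_
      exact (DM.of_do (DO.lt 0 1)).imp (dm_tE hen ht q 0 1 2)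
    · refine DM.exO (R := fun a s w => a < hz (s q) (w 0) ∧
        ¬ t a (hz (s q) (w 0)) ∈ E en (w 1)) ?_
      refine DM.and ?_ (dm_tE hen ht q 0 1 2).not
      exact DM.subst (f := fun s w => hz (s q) (w 1)) (R := fun b _ w => w 0 < b)
        (df_hz q 1) (DM.of_do (DO.lt 1 0))
  exact (h1.and h2).congr fun s w => ⟨fun h => ⟨h.lt, h.gd⟩, fun h => ⟨h.1, h.2⟩⟩

/-- minimality at the level of sets -/
def LMz (en : Ordinal.{u} → ZFSet.{u}) (t : Ordinal.{u} → Ordinal.{u} → Ordinal.{u})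
    (X : Set Ordinal.{u}) (ν : Ordinal.{u}) (s z : ZFSet.{u}) : Prop :=
  LN en t X ν {a | a.toZFSet ∈ s} (hz z) ∧ ∀ s' z' : ZFSet.{u},
    LN en t X ν {a | a.toZFSet ∈ s'} (hz z') →
      ¬ Pos om ν {γ | γ.toZFSet ∈ s' ∧ (¬ γ.toZFSet ∈ s ∨ hz z' γ < hz z γ)}

theorem dm_LMz (hen : EN en) (ht : Prf t) (hX : DS X) (p q i : ℕ) :
    DM.{u} fun s w => LMz en t X (w i) (s p) (s q) := by
  refine (dm_LN hen ht hX p q i).and ?_
  refine DM.allS (R := fun s' s w => ∀ z' : ZFSet.{u},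
    LN en t X (w i) {a | a.toZFSet ∈ s'} (hz z') →
      ¬ Pos om (w i) {γ | γ.toZFSet ∈ s' ∧ (¬ γ.toZFSet ∈ s p ∨ hz z' γ < hz (s q) γ)}) ?_
  refine DM.allS (R := fun z' s w =>
    LN en t X (w i) {a | a.toZFSet ∈ s 0} (hz z') →
      ¬ Pos om (w i) {γ | γ.toZFSet ∈ s 0 ∧
        (¬ γ.toZFSet ∈ s (p + 1) ∨ hz z' γ < hz (s (q + 1)) γ)}) ?_
  refine (dm_LN hen ht hX 1 0 i).imp (DM.not ?_)
  exact DM.posc (X := fun γ s _ => γ.toZFSet ∈ s 1 ∧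
    (¬ γ.toZFSet ∈ s (p + 2) ∨ hz (s 0) γ < hz (s (q + 2)) γ))
    ((DM.smem 1 0).and ((DM.smem (p + 2) 0).not.or (DM.lt (df_hz 0 0) (df_hz (q + 2) 0)))) om i

theorem LM_iff {ν : Ordinal.{u}} {T : Set Ordinal.{u}} {g : Ordinal.{u} → Ordinal.{u}}
    {s z : ZFSet.{u}} (hs : ∀ a < ν, (a.toZFSet ∈ s ↔ a ∈ T)) (hg : ∀ a < ν, hz z a = g a) :
    LM en t X ν T g ↔ LMz en t X ν s z := by
  have hN : LN en t X ν T g ↔ LN en t X ν {a | a.toZFSet ∈ s} (hz z) :=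
    ⟨LN_congr (fun a ha => (hs a ha).symm) (fun a ha => (hg a ha).symm), LN_congr hs hg⟩
  constructor
  · rintro ⟨h1, h2⟩
    refine ⟨hN.1 h1, fun s' z' h3 h4 => h2 _ _ h3 ((Pos.congr fun b hb => ?_).1 h4)⟩
    show (b.toZFSet ∈ s' ∧ (¬ b.toZFSet ∈ s ∨ hz z' b < hz z b)) ↔
      (b.toZFSet ∈ s' ∧ (b ∉ T ∨ hz z' b < g b))
    rw [hs b hb, hg b hb]
  · rintro ⟨h1, h2⟩
    refine ⟨hN.2 h1, fun T' g' h3 h4 => ?_⟩
    obtain ⟨z', hz'⟩ := exists_hz ν g'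
    have hs' : ∀ b < ν, (b ∈ T' ↔ b.toZFSet ∈ os ν T') := fun b hb => by
      rw [ord_mem_os]
      exact ⟨fun h => ⟨hb, h⟩, fun h => h.2⟩
    refine h2 (os ν T') z' (LN_congr hs' (fun a ha => (hz' a ha).symm) h3)
      ((Pos.congr fun b hb => ?_).1 h4)
    show (b ∈ T' ∧ (b ∉ T ∨ g' b < g b)) ↔
      (b.toZFSet ∈ os ν T' ∧ (¬ b.toZFSet ∈ s ∨ hz z' b < hz z b))
    rw [hs b hb, hg b hb, hz' b hb, hs' b hb]

/-- Row LD -/
theorem pf_LD : T_LD.{u} := by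
  intro en hen t X ht hX Y hY i
  have h1 : DM.{u} fun s w => LMz en t X (w i) (s 1) (s 0) ∧
      Pos om (w i) {γ | γ.toZFSet ∈ s 1 ∧ Y γ (hz (s 0) γ) w} := by
    refine (dm_LMz hen ht hX 1 0 i).and ?_
    refine DM.posc (X := fun γ s w => γ.toZFSet ∈ s 1 ∧ Y γ (hz (s 0) γ) w)
      ((DM.smem 1 0).and ?_) om i
    refine DM.subst (f := fun s w => hz (s 0) (w 0))
      (R := fun b s w => Y (w 0) b (fun n => w (n + 1))) (df_hz 0 0) ?_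
    refine (DM.of_do (hY.ren (fun n => if n = 0 then 1 else if n = 1 then 0 else n))).congr
      fun s w => ?_
    simp
  have h2 : DM.{u} fun _ w => ∃ s z : ZFSet.{u}, LMz en t X (w i) s z ∧
      Pos om (w i) {γ | γ.toZFSet ∈ s ∧ Y γ (hz z γ) w} :=
    DM.exS (R := fun s _ w => ∃ z : ZFSet.{u}, LMz en t X (w i) s z ∧
      Pos om (w i) {γ | γ.toZFSet ∈ s ∧ Y γ (hz z γ) w})
      (DM.exS (R := fun z s w => LMz en t X (w i) (s 0) z ∧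
        Pos om (w i) {γ | γ.toZFSet ∈ s 0 ∧ Y γ (hz z γ) w}) h1)
  refine (DM.do h2).congr fun w => ?_
  constructor
  · rintro ⟨T, g, h3, h4⟩
    obtain ⟨z, hz'⟩ := exists_hz (w i) g
    have hs : ∀ b < w i, (b.toZFSet ∈ os (w i) T ↔ b ∈ T) := fun b hb => by
      rw [ord_mem_os]
      exact ⟨fun h => h.2, fun h => ⟨hb, h⟩⟩
    refine ⟨os (w i) T, z, (LM_iff hs hz').1 h3, (Pos.congr fun b hb => ?_).1 h4⟩
    show (b ∈ T ∧ Y b (g b) w) ↔ (b.toZFSet ∈ os (w i) T ∧ Y b (hz z b) w)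
    rw [hs b hb, hz' b hb]
  · rintro ⟨s, z, h3, h4⟩
    exact ⟨{a | a.toZFSet ∈ s}, hz z, (LM_iff (fun _ _ => Iff.rfl) (fun _ _ => rfl)).2 h3, h4⟩

end Pool.Agent.H68.HE.LD
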